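import Pool.Agent.W889.SR.Stm2

set_option autoImplicit false
set_option linter.unusedVariables false

/-! Project SR2: SR2-CELAWS. -/

namespace Pool.Agent.W885.SR

open Set Ordinal Pool.Agent.W889.SR

/-- restriction to the cones of corresponding elements -/
theorem restrict {β : Ordinal.{0}} : ∀ {ι A B : Type} {r : A → A → Prop} {U : Set A}
    {a : ι → A} {s : B → B → Prop} {V : Set B} {b : ι → B} (i0 : ι), BF β r U a s V b →
    BF β r {z | z ∈ U ∧ r (a i0) z} a s {z | z ∈ V ∧ s (b i0) z} b := by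
  induction β using Ordinal.induction with
  | h β ih =>
    intro ι A B r U a s V b i0 h
    rw [BF_iff] at h ⊢
    refine ⟨h.1, fun γ hγ k d hd => ?_⟩
    obtain ⟨c, hc, hbf⟩ := h.2 γ hγ k d (fun i => (hd i).1)
    refine ⟨c, fun i => ⟨hc i, ?_⟩, ?_⟩
    · have h1 := hbf.sameQf.1 (Sum.inl i0) (Sum.inr i)
      exact h1.1 (hd i).2
    · exact ih γ hγ (Sum.inl i0) hbf

theorem emb (γ : Ordinal.{0}) (A B : Type) (r : A → A → Prop) (s : B → B → Prop) (g : A → B)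
    (U : Set A) (V : Set B) (hinj : Function.Injective g) (hg : ∀ x y, r x y ↔ s (g x) (g y))
    (hU : ∀ x ∈ U, g x ∈ V) (hV : ∀ y ∈ V, ∃ x ∈ U, g x = y) : ∀ (ι : Type) (a : ι → A),
      BF γ r U a s V (g ∘ a) ∧ BF γ s V (g ∘ a) r U a := by
  induction γ using Ordinal.induction with
  | h β ih =>
    intro ι a
    constructor
    · rw [BF_iff]
      refine ⟨⟨fun i j => hg _ _, fun i j => hinj.eq_iff.symm⟩, fun γ hγ k d hd => ?_⟩
      choose c hc hgc using fun i => hV (d i) (hd i)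
      refine ⟨c, hc, ?_⟩
      have h1 := (ih γ hγ (ι ⊕ Fin k) (Sum.elim a c)).2
      have e : g ∘ Sum.elim a c = Sum.elim (g ∘ a) d := by
        rw [Sum.comp_elim]
        congr 1
        ext i
        exact hgc i
      rwa [e] at h1
    · rw [BF_iff]
      refine ⟨⟨fun i j => (hg _ _).symm, fun i j => hinj.eq_iff⟩, fun γ hγ k d hd => ?_⟩
      refine ⟨g ∘ d, fun i => hU _ (hd i), ?_⟩
      have h1 := (ih γ hγ (ι ⊕ Fin k) (Sum.elim a d)).1
      rwa [Sum.comp_elim] at h1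

theorem exc (A : Type) (r : A → A → Prop) (hr : IsTree r) (x z : A) (hxz : r x z) (hne : x ≠ z) :
    ∃ c, Ch r x c ∧ r c z := by
  set S : Set A := {w | r x w ∧ x ≠ w ∧ r w z} with hS
  have hfin : S.Finite := (hr.fin z).subset fun w hw => hw.2.2
  have hzS : z ∈ S := ⟨hxz, hne, hr.refl z⟩
  obtain ⟨c, hcS, hmin⟩ := Set.exists_min_image S (fun w => {y | r y w}.ncard) hfin ⟨z, hzS⟩
  refine ⟨c, ⟨hcS.1, hcS.2.1, ?_⟩, hcS.2.2⟩
  intro w hxw hwc
  by_contra hcon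
  push Not at hcon
  have hwS : w ∈ S := ⟨hxw, Ne.symm hcon.1, hr.trans _ _ _ hwc hcS.2.2⟩
  have h1 := hmin w hwS
  have h2 : {y | r y w} ⊂ {y | r y c} := by
    refine ⟨fun y hy => hr.trans _ _ _ hy hwc, fun h => ?_⟩
    have h3 : r c w := h (hr.refl c)
    exact hcon.2 (hr.antisymm _ _ hwc h3)
  have h3 := Set.ncard_lt_ncard h2 (hr.fin c)
  omega

theorem child (γ : Ordinal.{0}) (A B : Type) (r : A → A → Prop) (s : B → B → Prop)
    (hr : IsForest r) (hs : IsForest s) (x : A) (y : B) (c : A) (h : CE (γ + 2) r x s y)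
    (hc : Ch r x c) : ∃ d, Ch s y d ∧ CE γ r c s d := by
  have hγ1 : γ < γ + 1 := lt_add_one γ
  have hγ2 : γ + 1 < γ + 2 := by
    have h1 : γ + 2 = γ + 1 + 1 := by
      rw [add_assoc, one_add_one_eq_two]
    rw [h1]
    exact lt_add_one _
  have h2 := h.2
  rw [BF_iff] at h2
  obtain ⟨d', hd', hbf⟩ := h2.2 (γ + 1) hγ2 1 (fun _ => c) (fun _ => hc.1)
  have hq := hbf.sameQf
  have hyd : s y (d' 0) := (hq.1 (Sum.inl ()) (Sum.inr 0)).1 hc.1
  have hyd' : y ≠ d' 0 := fun he => hc.2.1 ((hq.2 (Sum.inl ()) (Sum.inr 0)).2 he)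
  refine ⟨d' 0, ⟨hyd, hyd', ?_⟩, ?_⟩
  · intro z hyz hzd
    have h3 := hbf
    rw [BF_iff] at h3
    obtain ⟨z', hz', hbf'⟩ := h3.2 0 (lt_of_le_of_lt (zero_le (a := γ)) hγ1) 1 (fun _ => z)
      (fun _ => hyz)
    have hq' := hbf'.sameQf
    have e1 : r (z' 0) c := (hq'.1 (Sum.inr 0) (Sum.inl (Sum.inr 0))).1 hzd
    rcases hc.2.2 (z' 0) (hz' 0) e1 with h4 | h4
    · left
      exact (hq'.2 (Sum.inr 0) (Sum.inl (Sum.inl ()))).2 h4
    · right
      exact (hq'.2 (Sum.inr 0) (Sum.inl (Sum.inr 0))).2 h4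
  · have h3 := restrict (Sum.inr 0) hbf
    have e1 : {z | z ∈ {z | r x z} ∧ r (Sum.elim (fun _ : Unit => x) (fun _ : Fin 1 => c)
        (Sum.inr 0)) z} = {z | r c z} := by
      ext z
      constructor
      · intro hz; exact hz.2
      · intro hz; exact ⟨hr.trans _ _ _ hc.1 hz, hz⟩
    have e2 : {z | z ∈ {z | s y z} ∧ s (Sum.elim (fun _ : Unit => y) d' (Sum.inr 0)) z} =
        {z | s (d' 0) z} := by
      ext z
      constructor
      · intro hz; exact hz.2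
      · intro hz; exact ⟨hs.trans _ _ _ hyd hz, hz⟩
    rw [e1, e2] at h3
    have h4 := h3.reindex (fun _ : Unit => Sum.inr 0)
    exact ⟨h4.mono hγ1.le, h4.swap hγ1⟩

theorem root (γ : Ordinal.{0}) (A B : Type) (r : A → A → Prop) (s : B → B → Prop)
    (hs : IsTree s) (x : A) (y : B) (hx : ∀ z, r x z) (hy : ∀ z, s y z)
    (h : BF (γ + 2) s univ (Fin.elim0 : Fin 0 → B) r univ (Fin.elim0 : Fin 0 → A)) :
    CE γ r x s y := by
  have hγ1 : γ < γ + 1 := lt_add_one γ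
  have hγ2 : γ + 1 < γ + 2 := by
    have h1 : γ + 2 = γ + 1 + 1 := by
      rw [add_assoc, one_add_one_eq_two]
    rw [h1]
    exact lt_add_one _
  rw [BF_iff] at h
  obtain ⟨y', -, hbf⟩ := h.2 (γ + 1) hγ2 1 (fun _ => x) (fun _ => mem_univ _)
  have hroot : ∀ z, s (y' 0) z := by
    intro z
    have h3 := hbf
    rw [BF_iff] at h3
    obtain ⟨z', -, hbf'⟩ := h3.2 0 (lt_of_le_of_lt (zero_le (a := γ)) hγ1) 1 (fun _ => z)
      (fun _ => mem_univ _)
    exact (hbf'.sameQf.1 (Sum.inl (Sum.inr 0)) (Sum.inr 0)).2 (hx _)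
  have hy0 : y' 0 = y := hs.antisymm _ _ (hroot y) (hy _)
  have e1 : {z | r x z} = Set.univ := eq_univ_of_forall hx
  have e2 : {z | s y z} = Set.univ := eq_univ_of_forall hy
  have h4 := hbf.reindex (fun _ : Unit => Sum.inr 0)
  have e3 : (Sum.elim (Fin.elim0 : Fin 0 → B) y' ∘ fun _ : Unit => Sum.inr 0) = fun _ => y := by
    funext _
    exact hy0
  rw [e3] at h4
  unfold CE
  rw [e1, e2]
  exact ⟨h4.mono hγ1.le, h4.swap hγ1⟩

theorem celaws : CELaws where
  refl := fun γ A r x => ⟨BF.refl _ _ _ _, BF.refl _ _ _ _⟩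
  symm := fun γ A B r x s y h => ⟨h.2, h.1⟩
  trans := fun γ A B C r x s y t z h h' => ⟨h.1.trans h'.1, h'.2.trans h.2⟩
  mono := fun γ γ' hle A B r x s y h => ⟨h.1.mono hle, h.2.mono hle⟩
  child := child
  root := fun γ A B r s _ hs x y hx hy _ h => root γ A B r s hs x y hx hy h
  emb := emb
  exc := exc

end Pool.Agent.W885.SR
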